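import Mathlib

/-! Helper69, MP_a4b3b2_al: tameness lemmas T2, T3, T2S of proofs 252, section 3. -/

set_option autoImplicit false

namespace Pool.Agent.H69.MG

open scoped commutatorElement

section Basic

variable {G : Type*} [Group G]

/-- if `z` commutes with `x * y` and with `y` it commutes with `x` -/
lemma comm_of_mul_left {z x y : G} (h : Commute z (x * y)) (hy : Commute z y) : Commute z x := by
  have := h.mul_right hy.inv_right
  rwa [mul_inv_cancel_right] at this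

lemma comm_of_mul_right {z x y : G} (h : Commute z (x * y)) (hx : Commute z x) : Commute z y := by
  have := hx.inv_right.mul_right h
  rwa [inv_mul_cancel_left] at this

lemma conj_comm {g x y : G} (h : Commute x y) : Commute (g * x * g⁻¹) (g * y * g⁻¹) :=
  (Commute.conj_iff g).mpr h

end Basic

section Sys

variable {G : Type*} [Group G] {Λ Λ' : Type*}

/-- two families of commuting involutions indexed by labels and integers, with the tame
elements `g2`, `g3` -/
structure Sys (a : Λ → ℤ → G) (b : Λ' → ℤ → G) (g2 g3 : G) : Prop where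
  a2 : ∀ l q, a l q * a l q = 1
  b2 : ∀ l q, b l q * b l q = 1
  aa : ∀ l l' p q, Commute (a l p) (a l' q)
  bb : ∀ l l' p q, Commute (b l p) (b l' q)
  g2a : ∀ l q, g2 * a l q * g2⁻¹ = a l (q + 1) * a l (q - 1)
  g2b : ∀ l q, g2 * b l q * g2⁻¹ = b l (q + 1) * b l (q - 1)
  g3a : ∀ l q, g3 * a l q * g3⁻¹ = a l (q + 1) * a l q * a l (q - 1)
  g3b : ∀ l q, g3 * b l q * g3⁻¹ = b l (q + 1) * b l q * b l (q - 1)

/-- exchange the two families -/
lemma Sys.swap {a : Λ → ℤ → G} {b : Λ' → ℤ → G} {g2 g3 : G} (S : Sys a b g2 g3) :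
    Sys b a g2 g3 :=
  ⟨S.b2, S.a2, S.bb, S.aa, S.g2b, S.g2a, S.g3b, S.g3a⟩

/-- reverse the indices -/
lemma Sys.rev {a : Λ → ℤ → G} {b : Λ' → ℤ → G} {g2 g3 : G} (S : Sys a b g2 g3) :
    Sys (fun l q => a l (-q)) (fun l q => b l (-q)) g2 g3 where
  a2 := fun l q => S.a2 l _
  b2 := fun l q => S.b2 l _
  aa := fun l l' p q => S.aa l l' _ _
  bb := fun l l' p q => S.bb l l' _ _
  g2a := fun l q => by
    rw [S.g2a, (S.aa l l (-q + 1) (-q - 1)).eq]
    congr 2 <;> ring
  g2b := fun l q => by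
    rw [S.g2b, (S.bb l l (-q + 1) (-q - 1)).eq]
    congr 2 <;> ring
  g3a := fun l q => by
    have e1 : -(q + 1) = -q - 1 := by ring
    have e2 : -(q - 1) = -q + 1 := by ring
    rw [S.g3a, e1, e2, (S.aa l l (-q + 1) (-q)).eq, mul_assoc,
      (S.aa l l (-q + 1) (-q - 1)).eq, ← mul_assoc, (S.aa l l (-q) (-q - 1)).eq]
  g3b := fun l q => by
    have e1 : -(q + 1) = -q - 1 := by ring
    have e2 : -(q - 1) = -q + 1 := by ring
    rw [S.g3b, e1, e2, (S.bb l l (-q + 1) (-q)).eq, mul_assoc,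
      (S.bb l l (-q + 1) (-q - 1)).eq, ← mul_assoc, (S.bb l l (-q) (-q - 1)).eq]

/-- T2, one direction -/
lemma T2aux (a : Λ → ℤ → G) (b : Λ' → ℤ → G) (g2 : G)
    (g2a : ∀ l q, g2 * a l q * g2⁻¹ = a l (q + 1) * a l (q - 1))
    (g2b : ∀ l q, g2 * b l q * g2⁻¹ = b l (q + 1) * b l (q - 1))
    (h : ∀ l l' p q, |p - q| ≤ 2 → Commute (a l p) (b l' q)) :
    ∀ (n : ℕ) (l : Λ) (l' : Λ') (p q : ℤ), |p - q| ≤ (n : ℤ) → Commute (a l p) (b l' q) := by
  intro n
  induction n using Nat.strong_induction_on with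
  | _ n ih =>
    intro l l' p q hpq
    by_cases hn : n ≤ 2
    · exact h l l' p q (hpq.trans (by exact_mod_cast hn))
    rw [not_le] at hn
    have ih' : ∀ (l : Λ) (l' : Λ') (p q : ℤ), |p - q| ≤ ((n : ℤ) - 1) →
        Commute (a l p) (b l' q) := by
      intro l l' p q hh
      refine ih (n - 1) (by omega) l l' p q ?_
      rw [Nat.cast_sub (by omega)]
      exact_mod_cast hh
    by_cases hlt : |p - q| ≤ (n : ℤ) - 1
    · exact ih' l l' p q hlt
    have heq : |p - q| = n := by omega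
    rcases (abs_eq (by positivity)).mp heq with h1 | h1
    · -- p = q + n
      have hc := conj_comm (g := g2) (ih' l l' (p - 1) (q + 1) (by rw [abs_le]; constructor <;> omega))
      rw [g2a, g2b] at hc
      simp only [sub_add_cancel, add_sub_cancel_right] at hc
      -- hc : Commute (a p * a (p-2)) (b (q+2) * b q)
      have c1 : Commute (a l (p - 1 - 1)) (b l' (q + 1 + 1) * b l' q) :=
        (ih' l l' _ _ (by rw [abs_le]; constructor <;> omega)).mul_right
          (ih' l l' _ _ (by rw [abs_le]; constructor <;> omega))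
      have c2 : Commute (a l p) (b l' (q + 1 + 1) * b l' q) :=
        (comm_of_mul_left hc.symm c1.symm).symm
      exact comm_of_mul_right c2 (ih' l l' _ _ (by rw [abs_le]; constructor <;> omega))
    · have hc := conj_comm (g := g2) (ih' l l' (p + 1) (q - 1) (by rw [abs_le]; constructor <;> omega))
      rw [g2a, g2b] at hc
      simp only [sub_add_cancel, add_sub_cancel_right] at hc
      -- hc : Commute (a (p+2) * a p) (b q * b (q-2))
      have c1 : Commute (a l (p + 1 + 1)) (b l' q * b l' (q - 1 - 1)) :=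
        (ih' l l' _ _ (by rw [abs_le]; constructor <;> omega)).mul_right
          (ih' l l' _ _ (by rw [abs_le]; constructor <;> omega))
      have c2 : Commute (a l p) (b l' q * b l' (q - 1 - 1)) :=
        (comm_of_mul_right hc.symm c1.symm).symm
      exact comm_of_mul_left c2 (ih' l l' _ _ (by rw [abs_le]; constructor <;> omega))

/-- T2 -/
theorem T2 (a : Λ → ℤ → G) (b : Λ' → ℤ → G) (g2 : G)
    (g2a : ∀ l q, g2 * a l q * g2⁻¹ = a l (q + 1) * a l (q - 1))
    (g2b : ∀ l q, g2 * b l q * g2⁻¹ = b l (q + 1) * b l (q - 1))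
    (h : ∀ l l' p q, |p - q| ≤ 2 → Commute (a l p) (b l' q)) (l : Λ) (l' : Λ') (p q : ℤ) :
    Commute (a l p) (b l' q) :=
  T2aux a b g2 g2a g2b h (p - q).natAbs l l' p q (by rw [Int.abs_eq_natAbs])

/-- the three indices lie in a window of length `D` -/
def Win (D i j k : ℤ) : Prop := |i - j| ≤ D ∧ |j - k| ≤ D ∧ |i - k| ≤ D

/-- all commutators in windows of length `D` are central in the window -/
def Hyp (a : Λ → ℤ → G) (b : Λ' → ℤ → G) (D : ℤ) : Prop :=
  (∀ (l l' : Λ) (l'' : Λ') (i j k : ℤ), Win D i j k → Commute (a l i) ⁅a l' j, b l'' k⁆) ∧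
  (∀ (l : Λ') (l' : Λ) (l'' : Λ') (i j k : ℤ), Win D i j k → Commute (b l i) ⁅a l' j, b l'' k⁆)

lemma Win.neg {D i j k : ℤ} (h : Win D i j k) : Win D (-i) (-j) (-k) := by
  obtain ⟨h1, h2, h3⟩ := h
  refine ⟨?_, ?_, ?_⟩
  · rw [show -i - -j = -(i - j) by ring, abs_neg]; exact h1
  · rw [show -j - -k = -(j - k) by ring, abs_neg]; exact h2
  · rw [show -i - -k = -(i - k) by ring, abs_neg]; exact h3

lemma Win.swap {D i j k : ℤ} (h : Win D i j k) : Win D i k j := by
  obtain ⟨h1, h2, h3⟩ := h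
  exact ⟨h3, by rw [abs_sub_comm]; exact h2, h1⟩

lemma Hyp.rev {a : Λ → ℤ → G} {b : Λ' → ℤ → G} {D : ℤ} (h : Hyp a b D) :
    Hyp (fun l q => a l (-q)) (fun l q => b l (-q)) D :=
  ⟨fun l l' l'' i j k hw => h.1 l l' l'' _ _ _ hw.neg,
    fun l l' l'' i j k hw => h.2 l l' l'' _ _ _ hw.neg⟩

lemma Hyp.swap {a : Λ → ℤ → G} {b : Λ' → ℤ → G} {D : ℤ} (h : Hyp a b D) : Hyp b a D := by
  refine ⟨fun l l' l'' i j k hw => ?_, fun l l' l'' i j k hw => ?_⟩
  · rw [← commutatorElement_inv]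
    exact (h.2 l l'' l' i k j hw.swap).inv_right
  · rw [← commutatorElement_inv]
    exact (h.1 l l'' l' i k j hw.swap).inv_right

/-- commuting with a closure -/
lemma comm_closure {Q c : G} {T : Set G} (hc : c ∈ Subgroup.closure T)
    (h : ∀ s ∈ T, Commute Q s) : Commute Q c := by
  induction hc using Subgroup.closure_induction with
  | mem x hx => exact h x hx
  | one => exact Commute.one_right Q
  | mul x y _ _ hx hy => exact hx.mul_right hy
  | inv x _ hx => exact hx.inv_right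

/-- conjugation by a product of elements which commute with the commutators -/
lemma conj_list (w : G) (bs : List G) (h : ∀ y ∈ bs, ∀ z ∈ bs, Commute y ⁅w, z⁆) :
    ∃ c ∈ Subgroup.closure {t | ∃ y ∈ bs, t = ⁅w, y⁆}, bs.prod * w * bs.prod⁻¹ = c * w := by
  induction bs with
  | nil => exact ⟨1, Subgroup.one_mem _, by simp⟩
  | cons y ys ih =>
    obtain ⟨c, hc, e⟩ := ih (fun y' hy' z hz => h y' (List.mem_cons_of_mem _ hy') z
      (List.mem_cons_of_mem _ hz))
    have hmono : Subgroup.closure {t | ∃ y ∈ ys, t = ⁅w, y⁆}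
        ≤ Subgroup.closure {t | ∃ z ∈ (y :: ys), t = ⁅w, z⁆} := by
      apply Subgroup.closure_mono
      rintro t ⟨z, hz, rfl⟩
      exact ⟨z, List.mem_cons_of_mem _ hz, rfl⟩
    have hyc : Commute y c := by
      apply comm_closure hc
      rintro t ⟨z, hz, rfl⟩
      exact h y List.mem_cons_self z (List.mem_cons_of_mem _ hz)
    refine ⟨c * ⁅w, y⁆⁻¹, ?_, ?_⟩
    · refine Subgroup.mul_mem _ (hmono hc) (Subgroup.inv_mem _ (Subgroup.subset_closure ?_))
      exact ⟨y, List.mem_cons_self, rfl⟩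
    · rw [List.prod_cons]
      calc y * ys.prod * w * (y * ys.prod)⁻¹ = y * (ys.prod * w * ys.prod⁻¹) * y⁻¹ := by group
        _ = (y * c) * w * y⁻¹ := by rw [e]; group
        _ = c * (y * w * y⁻¹ * w⁻¹) * w := by rw [hyc.eq]; group
        _ = c * ⁅w, y⁆⁻¹ * w := by rw [commutatorElement_inv, commutatorElement_def]

lemma comm_conj_list {x w : G} (bs : List G) (h : ∀ y ∈ bs, ∀ z ∈ bs, Commute y ⁅w, z⁆)
    (h' : ∀ y ∈ bs, Commute x ⁅w, y⁆) (hx : Commute x w) :
    Commute x (bs.prod * w * bs.prod⁻¹) := by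
  obtain ⟨c, hc, e⟩ := conj_list w bs h
  rw [e]
  refine Commute.mul_right ?_ hx
  apply comm_closure hc
  rintro t ⟨z, hz, rfl⟩
  exact h' z hz

variable {a : Λ → ℤ → G} {b : Λ' → ℤ → G} {g2 g3 : G}

/-- the two forms of the relation -/
lemma Sys.form (S : Sys a b g2 g3) {l l' : Λ} {l'' : Λ'} {i j k : ℤ} :
    Commute (a l i) ⁅a l' j, b l'' k⁆ ↔
      Commute (a l i) (b l'' k * a l' j * (b l'' k)⁻¹) := by
  have e : b l'' k * a l' j * (b l'' k)⁻¹ = ⁅a l' j, b l'' k⁆⁻¹ * a l' j := by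
    rw [commutatorElement_inv, commutatorElement_def]; group
  rw [e]
  constructor
  · intro h
    exact h.inv_right.mul_right (S.aa _ _ _ _)
  · intro h
    exact Commute.inv_right_iff.mp (comm_of_mul_left h (S.aa _ _ _ _))

lemma Win.mk' {D i j k lo hi : ℤ} (hlo : hi - lo ≤ D) (hi1 : lo ≤ i) (hi2 : i ≤ hi)
    (hj1 : lo ≤ j) (hj2 : j ≤ hi) (hk1 : lo ≤ k) (hk2 : k ≤ hi) : Win D i j k := by
  refine ⟨?_, ?_, ?_⟩ <;> rw [abs_le] <;> constructor <;> omega

/-- pull commutators out of a conjugated product of two factors -/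
lemma pull2 {C Q x y cx cy : G} (ex : C * x * C⁻¹ = cx * x) (ey : C * y * C⁻¹ = cy * y)
    (hx : Commute Q cx) (hy : Commute Q cy) (hxy : Commute x cy)
    (h : Commute (C * (x * y) * C⁻¹) Q) : Commute (x * y) Q := by
  have e : C * (x * y) * C⁻¹ = cx * cy * (x * y) := by
    calc C * (x * y) * C⁻¹ = (C * x * C⁻¹) * (C * y * C⁻¹) := by group
      _ = cx * (x * cy) * y := by rw [ex, ey]; group
      _ = cx * cy * (x * y) := by rw [hxy.eq]; group
  rw [e] at h
  exact (comm_of_mul_right h.symm (hx.mul_right hy)).symm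

lemma pull3 {C Q x y z cx cy cz : G} (ex : C * x * C⁻¹ = cx * x) (ey : C * y * C⁻¹ = cy * y)
    (ez : C * z * C⁻¹ = cz * z)
    (hx : Commute Q cx) (hy : Commute Q cy) (hz : Commute Q cz) (hxy : Commute x cy)
    (hxz : Commute x cz) (hyz : Commute y cz)
    (h : Commute (C * (x * y * z) * C⁻¹) Q) : Commute (x * y * z) Q := by
  have e : C * (x * y * z) * C⁻¹ = cx * cy * cz * (x * y * z) := by
    calc C * (x * y * z) * C⁻¹ = (C * x * C⁻¹) * (C * y * C⁻¹) * (C * z * C⁻¹) := by group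
      _ = cx * (x * cy) * (y * cz) * z := by rw [ex, ey, ez]; group
      _ = cx * cy * (x * cz) * y * z := by rw [hxy.eq, hyz.eq]; group
      _ = cx * cy * cz * (x * y * z) := by rw [hxz.eq]; group
  rw [e] at h
  exact (comm_of_mul_right h.symm ((hx.mul_right hy).mul_right hz)).symm

/-- window relation: `a_x` commutes with `B a_w B⁻¹`, `B` a product of `b`'s -/
lemma Sys.win (S : Sys a b g2 g3) {D : ℤ} (H : Hyp a b D) {l l' : Λ} {x w lo hi : ℤ}
    (hlo : hi - lo ≤ D) (hx1 : lo ≤ x) (hx2 : x ≤ hi) (hw1 : lo ≤ w) (hw2 : w ≤ hi)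
    (ys : List (Λ' × ℤ)) (hy : ∀ y ∈ ys, lo ≤ y.2 ∧ y.2 ≤ hi) :
    Commute (a l x) ((ys.map fun y => b y.1 y.2).prod * a l' w
      * (ys.map fun y => b y.1 y.2).prod⁻¹) := by
  apply comm_conj_list
  · rintro _ hy1 _ hz1
    obtain ⟨y, hy', rfl⟩ := List.mem_map.mp hy1
    obtain ⟨z, hz', rfl⟩ := List.mem_map.mp hz1
    exact H.2 _ _ _ _ _ _ (Win.mk' hlo (hy y hy').1 (hy y hy').2 hw1 hw2 (hy z hz').1
      (hy z hz').2)
  · rintro _ hy1
    obtain ⟨y, hy', rfl⟩ := List.mem_map.mp hy1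
    exact H.1 _ _ _ _ _ _ (Win.mk' hlo hx1 hx2 hw1 hw2 (hy y hy').1 (hy y hy').2)
  · exact S.aa _ _ _ _

/-- conjugation of `a_x` by `b`'s in a window, with the properties of the commutator part -/
lemma Sys.win' (S : Sys a b g2 g3) {D : ℤ} (H : Hyp a b D) {l : Λ} {x lo hi : ℤ}
    (hlo : hi - lo ≤ D) (hx1 : lo ≤ x) (hx2 : x ≤ hi)
    (ys : List (Λ' × ℤ)) (hy : ∀ y ∈ ys, lo ≤ y.2 ∧ y.2 ≤ hi) :
    ∃ c, (ys.map fun y => b y.1 y.2).prod * a l x * (ys.map fun y => b y.1 y.2).prod⁻¹ = c * a l x ∧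
      ∀ Q : G, (∀ y ∈ ys, Commute Q ⁅a l x, b y.1 y.2⁆) → Commute Q c := by
  obtain ⟨c, hc, e⟩ := conj_list (a l x) (ys.map fun y => b y.1 y.2) (by
    rintro _ hy1 _ hz1
    obtain ⟨y, hy', rfl⟩ := List.mem_map.mp hy1
    obtain ⟨z, hz', rfl⟩ := List.mem_map.mp hz1
    exact H.2 _ _ _ _ _ _ (Win.mk' hlo (hy y hy').1 (hy y hy').2 hx1 hx2 (hy z hz').1
      (hy z hz').2))
  refine ⟨c, e, fun Q hQ => ?_⟩
  apply comm_closure hc
  rintro t ⟨z, hz, rfl⟩
  obtain ⟨y, hy', rfl⟩ := List.mem_map.mp hz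
  exact hQ y hy'

/-- case (2), product of two -/
lemma case2a (S : Sys a b g2 g3) {D : ℤ} (hD : 5 ≤ D) (H : Hyp a b (D - 1)) (l l' : Λ) (l'' : Λ')
    (p i : ℤ) (h1 : p + 2 ≤ i) (h2 : i ≤ p + D - 2) :
    Commute (a l (i + 1) * a l (i - 1)) (b l'' p * a l' (p + D) * (b l'' p)⁻¹) := by
  have h0 : Commute (a l i) (b l'' (p + 1) * a l' (p + D - 1) * (b l'' (p + 1))⁻¹) :=
    S.form.mp (H.1 _ _ _ _ _ _ (Win.mk' (lo := p + 1) (hi := p + D) (by omega) (by omega)
      (by omega) (by omega) (by omega) (by omega) (by omega)))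
  have hc := conj_comm (g := g2) h0
  have e1 : g2 * (b l'' (p + 1) * a l' (p + D - 1) * (b l'' (p + 1))⁻¹) * g2⁻¹
      = (b l'' (p + 2) * b l'' p) * a l' (p + D) * (b l'' (p + 2) * b l'' p)⁻¹
        * ((b l'' (p + 2) * b l'' p) * a l' (p + D - 2) * (b l'' (p + 2) * b l'' p)⁻¹) := by
    have := S.g2b l'' (p + 1)
    have h' := S.g2a l' (p + D - 1)
    rw [show p + 1 + 1 = p + 2 by ring, show p + 1 - 1 = p by ring] at this
    rw [show p + D - 1 + 1 = p + D by ring, show p + D - 1 - 1 = p + D - 2 by ring] at h'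
    calc g2 * (b l'' (p + 1) * a l' (p + D - 1) * (b l'' (p + 1))⁻¹) * g2⁻¹
        = (g2 * b l'' (p + 1) * g2⁻¹) * (g2 * a l' (p + D - 1) * g2⁻¹)
          * (g2 * b l'' (p + 1) * g2⁻¹)⁻¹ := by group
      _ = _ := by rw [this, h']; group
  rw [S.g2a, e1] at hc
  -- drop the term in the window
  have d : Commute (a l (i + 1) * a l (i - 1)) ((b l'' (p + 2) * b l'' p) * a l' (p + D - 2)
      * (b l'' (p + 2) * b l'' p)⁻¹) := by
    have w1 := S.win H (l := l) (l' := l') (x := i + 1) (w := p + D - 2) (lo := p)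
      (hi := p + D - 1) (by omega) (by omega) (by omega) (by omega) (by omega)
      [(l'', p + 2), (l'', p)] (by simp; omega)
    have w2 := S.win H (l := l) (l' := l') (x := i - 1) (w := p + D - 2) (lo := p)
      (hi := p + D - 1) (by omega) (by omega) (by omega) (by omega) (by omega)
      [(l'', p + 2), (l'', p)] (by simp; omega)
    simp only [List.map_cons, List.map_nil, List.prod_cons, List.prod_nil, mul_one] at w1 w2
    exact w1.mul_left w2
  have hc2 := comm_of_mul_left hc d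
  -- conjugate by b (p+2)
  have hc3 := conj_comm (g := b l'' (p + 2)) hc2
  have sq := S.b2 l'' (p + 2)
  have e2 : b l'' (p + 2) * ((b l'' (p + 2) * b l'' p) * a l' (p + D)
      * (b l'' (p + 2) * b l'' p)⁻¹) * (b l'' (p + 2))⁻¹
      = b l'' p * a l' (p + D) * (b l'' p)⁻¹ := by
    calc _ = (b l'' (p + 2) * b l'' (p + 2)) * (b l'' p * a l' (p + D) * (b l'' p)⁻¹)
          * (b l'' (p + 2) * b l'' (p + 2))⁻¹ := by group
      _ = _ := by rw [sq]; group
  rw [e2] at hc3
  obtain ⟨c1, ec1, f1⟩ := S.win' H (l := l) (x := i + 1) (lo := p) (hi := p + D - 1)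
    (by omega) (by omega) (by omega) [(l'', p + 2)] (by simp; omega)
  obtain ⟨c2, ec2, f2⟩ := S.win' H (l := l) (x := i - 1) (lo := p) (hi := p + D - 1)
    (by omega) (by omega) (by omega) [(l'', p + 2)] (by simp; omega)
  simp only [List.map_cons, List.map_nil, List.prod_cons, List.prod_nil, mul_one,
    List.mem_singleton, forall_eq] at ec1 f1 ec2 f2
  have q : ∀ x : ℤ, p + 1 ≤ x → x ≤ p + D - 1 →
      Commute (b l'' p * a l' (p + D) * (b l'' p)⁻¹) ⁅a l x, b l'' (p + 2)⁆ := by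
    intro x hx1 hx2
    have t1 : Commute (b l'' p) ⁅a l x, b l'' (p + 2)⁆ :=
      H.2 _ _ _ _ _ _ (Win.mk' (lo := p) (hi := p + D - 1) (by omega) (by omega) (by omega)
        (by omega) (by omega) (by omega) (by omega))
    have t2 : Commute (a l' (p + D)) ⁅a l x, b l'' (p + 2)⁆ :=
      H.1 _ _ _ _ _ _ (Win.mk' (lo := p + 1) (hi := p + D) (by omega) (by omega) (by omega)
        (by omega) (by omega) (by omega) (by omega))
    exact (t1.mul_left t2).mul_left t1.inv_left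
  refine pull2 ec1 ec2 (f1 _ (q _ (by omega) (by omega))) (f2 _ (q _ (by omega) (by omega)))
    (f2 _ ?_) hc3
  exact H.1 _ _ _ _ _ _ (Win.mk' (lo := p) (hi := p + D - 1) (by omega) (by omega) (by omega)
        (by omega) (by omega) (by omega) (by omega))

/-- case (2), product of three -/
lemma case2b (S : Sys a b g2 g3) {D : ℤ} (hD : 5 ≤ D) (H : Hyp a b (D - 1)) (l l' : Λ) (l'' : Λ')
    (p i : ℤ) (h1 : p + 2 ≤ i) (h2 : i ≤ p + D - 2) :
    Commute (a l (i + 1) * a l i * a l (i - 1)) (b l'' p * a l' (p + D) * (b l'' p)⁻¹) := by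
  have h0 : Commute (a l i) (b l'' (p + 1) * a l' (p + D - 1) * (b l'' (p + 1))⁻¹) :=
    S.form.mp (H.1 _ _ _ _ _ _ (Win.mk' (lo := p + 1) (hi := p + D) (by omega) (by omega)
      (by omega) (by omega) (by omega) (by omega) (by omega)))
  have hc := conj_comm (g := g3) h0
  have e1 : g3 * (b l'' (p + 1) * a l' (p + D - 1) * (b l'' (p + 1))⁻¹) * g3⁻¹
      = (b l'' (p + 2) * b l'' (p + 1) * b l'' p) * a l' (p + D)
          * (b l'' (p + 2) * b l'' (p + 1) * b l'' p)⁻¹
        * (((b l'' (p + 2) * b l'' (p + 1) * b l'' p) * a l' (p + D - 1)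
          * (b l'' (p + 2) * b l'' (p + 1) * b l'' p)⁻¹)
        * ((b l'' (p + 2) * b l'' (p + 1) * b l'' p) * a l' (p + D - 2)
          * (b l'' (p + 2) * b l'' (p + 1) * b l'' p)⁻¹)) := by
    have := S.g3b l'' (p + 1)
    have h' := S.g3a l' (p + D - 1)
    rw [show p + 1 + 1 = p + 2 by ring, show p + 1 - 1 = p by ring] at this
    rw [show p + D - 1 + 1 = p + D by ring, show p + D - 1 - 1 = p + D - 2 by ring] at h'
    calc g3 * (b l'' (p + 1) * a l' (p + D - 1) * (b l'' (p + 1))⁻¹) * g3⁻¹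
        = (g3 * b l'' (p + 1) * g3⁻¹) * (g3 * a l' (p + D - 1) * g3⁻¹)
          * (g3 * b l'' (p + 1) * g3⁻¹)⁻¹ := by group
      _ = _ := by rw [this, h']; group
  rw [S.g3a, e1] at hc
  -- drop the terms in the window
  have w : ∀ x w : ℤ, p ≤ x → x ≤ p + D - 1 → p ≤ w → w ≤ p + D - 1 →
      Commute (a l x) ((b l'' (p + 2) * b l'' (p + 1) * b l'' p) * a l' w
          * (b l'' (p + 2) * b l'' (p + 1) * b l'' p)⁻¹) := by
    intro x w hx1 hx2 hw1 hw2
    have w1 := S.win H (l := l) (l' := l') (x := x) (w := w) (lo := p)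
      (hi := p + D - 1) (by omega) (by omega) (by omega) (by omega) (by omega)
      [(l'', p + 2), (l'', p + 1), (l'', p)] (by simp; omega)
    simp only [List.map_cons, List.map_nil, List.prod_cons, List.prod_nil, mul_one,
      ← mul_assoc] at w1
    simpa only [mul_assoc] using w1
  have d : ∀ w' : ℤ, p ≤ w' → w' ≤ p + D - 1 → Commute (a l (i + 1) * a l i * a l (i - 1))
      ((b l'' (p + 2) * b l'' (p + 1) * b l'' p) * a l' w'
          * (b l'' (p + 2) * b l'' (p + 1) * b l'' p)⁻¹) := by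
    intro w' hw1 hw2
    exact ((w _ _ (by omega) (by omega) hw1 hw2).mul_left
      (w _ _ (by omega) (by omega) hw1 hw2)).mul_left (w _ _ (by omega) (by omega) hw1 hw2)
  have hc2 := comm_of_mul_left hc ((d _ (by omega) (by omega)).mul_right
    (d _ (by omega) (by omega)))
  -- conjugate by b (p+2) b (p+1)
  have hc3 := conj_comm (g := b l'' (p + 2) * b l'' (p + 1)) hc2
  have sq := S.b2 l'' (p + 2)
  have sq1 := S.b2 l'' (p + 1)
  have cb := S.bb l'' l'' (p + 2) (p + 1)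
  have e2 : (b l'' (p + 2) * b l'' (p + 1)) * ((b l'' (p + 2) * b l'' (p + 1) * b l'' p)
      * a l' (p + D) * (b l'' (p + 2) * b l'' (p + 1) * b l'' p)⁻¹)
      * (b l'' (p + 2) * b l'' (p + 1))⁻¹
      = b l'' p * a l' (p + D) * (b l'' p)⁻¹ := by
    have sqq : (b l'' (p + 2) * b l'' (p + 1)) * (b l'' (p + 2) * b l'' (p + 1)) = 1 := by
      calc (b l'' (p + 2) * b l'' (p + 1)) * (b l'' (p + 2) * b l'' (p + 1))
          = (b l'' (p + 2) * b l'' (p + 1)) * (b l'' (p + 1) * b l'' (p + 2)) := by rw [cb.eq]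
        _ = b l'' (p + 2) * (b l'' (p + 1) * b l'' (p + 1)) * b l'' (p + 2) := by group
        _ = 1 := by rw [sq1, mul_one, sq]
    calc _ = ((b l'' (p + 2) * b l'' (p + 1)) * (b l'' (p + 2) * b l'' (p + 1)))
          * (b l'' p * a l' (p + D) * (b l'' p)⁻¹)
          * ((b l'' (p + 2) * b l'' (p + 1)) * (b l'' (p + 2) * b l'' (p + 1)))⁻¹ := by group
      _ = _ := by rw [sqq]; group
  rw [e2] at hc3
  have win' : ∀ x : ℤ, p + 1 ≤ x → x ≤ p + D - 1 →
      ∃ c, (b l'' (p + 2) * b l'' (p + 1)) * a l x * (b l'' (p + 2) * b l'' (p + 1))⁻¹ = c * a l x ∧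
      ∀ Q : G, (Commute Q ⁅a l x, b l'' (p + 2)⁆ ∧ Commute Q ⁅a l x, b l'' (p + 1)⁆) →
        Commute Q c := by
    intro x hx1 hx2
    obtain ⟨c, ec, f⟩ := S.win' H (l := l) (x := x) (lo := p) (hi := p + D - 1)
      (by omega) (by omega) (by omega) [(l'', p + 2), (l'', p + 1)] (by simp; omega)
    simp only [List.map_cons, List.map_nil, List.prod_cons, List.prod_nil, mul_one,
      List.mem_cons, List.not_mem_nil, or_false, forall_eq_or_imp, forall_eq] at ec f
    exact ⟨c, ec, f⟩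
  obtain ⟨c1, ec1, f1⟩ := win' (i + 1) (by omega) (by omega)
  obtain ⟨c0, ec0, f0⟩ := win' i (by omega) (by omega)
  obtain ⟨c2, ec2, f2⟩ := win' (i - 1) (by omega) (by omega)
  have q : ∀ x y : ℤ, p + 1 ≤ x → x ≤ p + D - 1 → p + 1 ≤ y → y ≤ p + 2 →
      Commute (b l'' p * a l' (p + D) * (b l'' p)⁻¹) ⁅a l x, b l'' y⁆ := by
    intro x y hx1 hx2 hy1 hy2
    have t1 : Commute (b l'' p) ⁅a l x, b l'' y⁆ :=
      H.2 _ _ _ _ _ _ (Win.mk' (lo := p) (hi := p + D - 1) (by omega) (by omega) (by omega)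
        (by omega) (by omega) (by omega) (by omega))
    have t2 : Commute (a l' (p + D)) ⁅a l x, b l'' y⁆ :=
      H.1 _ _ _ _ _ _ (Win.mk' (lo := p + 1) (hi := p + D) (by omega) (by omega) (by omega)
        (by omega) (by omega) (by omega) (by omega))
    exact (t1.mul_left t2).mul_left t1.inv_left
  have aw : ∀ x' x y : ℤ, p + 1 ≤ x' → x' ≤ p + D - 1 → p + 1 ≤ x → x ≤ p + D - 1 →
      p + 1 ≤ y → y ≤ p + 2 → Commute (a l x') ⁅a l x, b l'' y⁆ := by
    intro x' x y h1 h2 h3 h4 h5 h6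
    exact H.1 _ _ _ _ _ _ (Win.mk' (lo := p) (hi := p + D - 1) (by omega) (by omega) (by omega)
        (by omega) (by omega) (by omega) (by omega))
  refine pull3 ec1 ec0 ec2 (f1 _ ⟨q _ _ ?_ ?_ ?_ ?_, q _ _ ?_ ?_ ?_ ?_⟩)
    (f0 _ ⟨q _ _ ?_ ?_ ?_ ?_, q _ _ ?_ ?_ ?_ ?_⟩) (f2 _ ⟨q _ _ ?_ ?_ ?_ ?_, q _ _ ?_ ?_ ?_ ?_⟩)
    (f0 _ ⟨aw _ _ _ ?_ ?_ ?_ ?_ ?_ ?_, aw _ _ _ ?_ ?_ ?_ ?_ ?_ ?_⟩)
    (f2 _ ⟨aw _ _ _ ?_ ?_ ?_ ?_ ?_ ?_, aw _ _ _ ?_ ?_ ?_ ?_ ?_ ?_⟩)
    (f2 _ ⟨aw _ _ _ ?_ ?_ ?_ ?_ ?_ ?_, aw _ _ _ ?_ ?_ ?_ ?_ ?_ ?_⟩) hc3 <;> omega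

/-- case (2): `a_i` commutes with `[a_(p+D), b_p]`, `p < i < p + D` -/
lemma case2 (S : Sys a b g2 g3) {D : ℤ} (hD : 5 ≤ D) (H : Hyp a b (D - 1)) (l l' : Λ) (l'' : Λ')
    (p i : ℤ) (h1 : p < i) (h2 : i < p + D) : Commute (a l i) ⁅a l' (p + D), b l'' p⁆ := by
  rw [S.form]
  have mid : ∀ i, p + 2 ≤ i → i ≤ p + D - 2 →
      Commute (a l i) (b l'' p * a l' (p + D) * (b l'' p)⁻¹) := by
    intro i h1 h2
    have A := case2a S hD H l l' l'' p i h1 h2
    have B := case2b S hD H l l' l'' p i h1 h2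
    have e : a l (i + 1) * a l i * a l (i - 1) = a l i * (a l (i + 1) * a l (i - 1)) := by
      rw [(S.aa l l (i + 1) i).eq, mul_assoc]
    rw [e] at B
    exact (comm_of_mul_left B.symm A.symm).symm
  rcases lt_trichotomy i (p + 1) with h | h | h
  · omega
  · -- i = p + 1
    subst h
    have A := case2a S hD H l l' l'' p (p + 2) (by omega) (by omega)
    rw [show p + 2 + 1 = p + 3 by ring, show p + 2 - 1 = p + 1 by ring] at A
    exact (comm_of_mul_right A.symm (mid (p + 3) (by omega) (by omega)).symm).symm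
  · by_cases h3 : i ≤ p + D - 2
    · exact mid i (by omega) h3
    · have hi : i = p + D - 1 := by omega
      subst hi
      have A := case2a S hD H l l' l'' p (p + D - 2) (by omega) (by omega)
      rw [show p + D - 2 + 1 = p + D - 1 by ring, show p + D - 2 - 1 = p + D - 3 by ring] at A
      exact (comm_of_mul_left A.symm (mid (p + D - 3) (by omega) (by omega)).symm).symm

lemma form2 {x y w : G} (h : Commute x ⁅w, y⁆) :
    (x * y) * w * (x * y)⁻¹ = ⁅w, y⁆⁻¹ * ⁅w, x⁆⁻¹ * w := by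
  have e : ∀ u : G, u * w * u⁻¹ = ⁅w, u⁆⁻¹ * w := fun u => by
    rw [commutatorElement_inv, commutatorElement_def]; group
  calc (x * y) * w * (x * y)⁻¹ = x * (y * w * y⁻¹) * x⁻¹ := by group
    _ = x * ⁅w, y⁆⁻¹ * w * x⁻¹ := by rw [e y]; group
    _ = ⁅w, y⁆⁻¹ * (x * w * x⁻¹) := by rw [h.inv_right.eq]; group
    _ = ⁅w, y⁆⁻¹ * ⁅w, x⁆⁻¹ * w := by rw [e x]; group

lemma form3 {x y z w : G} (h1 : Commute x ⁅w, z⁆) (h2 : Commute x ⁅w, y⁆)
    (h3 : Commute y ⁅w, z⁆) :
    (x * y * z) * w * (x * y * z)⁻¹ = ⁅w, z⁆⁻¹ * ⁅w, y⁆⁻¹ * ⁅w, x⁆⁻¹ * w := by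
  have e : ∀ u : G, u * w * u⁻¹ = ⁅w, u⁆⁻¹ * w := fun u => by
    rw [commutatorElement_inv, commutatorElement_def]; group
  calc (x * y * z) * w * (x * y * z)⁻¹ = x * ((y * z) * w * (y * z)⁻¹) * x⁻¹ := by group
    _ = (x * ⁅w, z⁆⁻¹) * ⁅w, y⁆⁻¹ * w * x⁻¹ := by rw [form2 h3]; group
    _ = ⁅w, z⁆⁻¹ * (x * ⁅w, y⁆⁻¹) * w * x⁻¹ := by rw [h1.inv_right.eq]; group
    _ = ⁅w, z⁆⁻¹ * ⁅w, y⁆⁻¹ * (x * w * x⁻¹) := by rw [h2.inv_right.eq]; group
    _ = _ := by rw [e x]; group

/-- case (1), product of two -/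
lemma case1a (S : Sys a b g2 g3) {D : ℤ} (hD : 5 ≤ D) (H : Hyp a b (D - 1)) (l l' : Λ) (l'' : Λ')
    (p j : ℤ) (h1 : p + 2 ≤ j) (h2 : j ≤ p + D - 2) :
    Commute (a l p) (⁅a l' (p + D), b l'' (j - 1)⁆⁻¹ * ⁅a l' (p + D), b l'' (j + 1)⁆⁻¹) := by
  have h0 : Commute (a l (p + 1)) (b l'' j * a l' (p + D - 1) * (b l'' j)⁻¹) :=
    S.form.mp (H.1 _ _ _ _ _ _ (Win.mk' (lo := p + 1) (hi := p + D) (by omega) (by omega)
      (by omega) (by omega) (by omega) (by omega) (by omega)))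
  have hc := conj_comm (g := g2) h0
  have e1 : g2 * (b l'' j * a l' (p + D - 1) * (b l'' j)⁻¹) * g2⁻¹
      = (b l'' (j + 1) * b l'' (j - 1)) * a l' (p + D) * (b l'' (j + 1) * b l'' (j - 1))⁻¹
        * ((b l'' (j + 1) * b l'' (j - 1)) * a l' (p + D - 2)
          * (b l'' (j + 1) * b l'' (j - 1))⁻¹) := by
    have := S.g2b l'' j
    have h' := S.g2a l' (p + D - 1)
    rw [show p + D - 1 + 1 = p + D by ring, show p + D - 1 - 1 = p + D - 2 by ring] at h'
    calc g2 * (b l'' j * a l' (p + D - 1) * (b l'' j)⁻¹) * g2⁻¹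
        = (g2 * b l'' j * g2⁻¹) * (g2 * a l' (p + D - 1) * g2⁻¹)
          * (g2 * b l'' j * g2⁻¹)⁻¹ := by group
      _ = _ := by rw [this, h']; group
  rw [S.g2a, e1, show p + 1 + 1 = p + 2 by ring, show p + 1 - 1 = p by ring] at hc
  have w : ∀ x w lo : ℤ, lo ≤ x → x ≤ lo + (D - 1) → lo ≤ w → w ≤ lo + (D - 1) →
      lo ≤ j - 1 → j + 1 ≤ lo + (D - 1) →
      Commute (a l x) ((b l'' (j + 1) * b l'' (j - 1)) * a l' w
        * (b l'' (j + 1) * b l'' (j - 1))⁻¹) := by
    intro x w lo hx1 hx2 hw1 hw2 hj1 hj2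
    have w1 := S.win H (l := l) (l' := l') (x := x) (w := w) (lo := lo)
      (hi := lo + (D - 1)) (by omega) (by omega) (by omega) (by omega) (by omega)
      [(l'', j + 1), (l'', j - 1)] (by simp; omega)
    simpa only [List.map_cons, List.map_nil, List.prod_cons, List.prod_nil, mul_one] using w1
  have d := (w (p + 2) (p + D - 2) p (by omega) (by omega) (by omega) (by omega) (by omega)
    (by omega)).mul_left (w p (p + D - 2) p (by omega) (by omega) (by omega) (by omega) (by omega)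
    (by omega))
  have hc2 := comm_of_mul_left hc d
  have d2 := w (p + 2) (p + D) (p + 1) (by omega) (by omega) (by omega) (by omega) (by omega)
    (by omega)
  have hc3 := (comm_of_mul_right hc2.symm d2.symm).symm
  rw [form2 (H.2 _ _ _ _ _ _ (Win.mk' (lo := p + 1) (hi := p + D) (by omega) (by omega)
      (by omega) (by omega) (by omega) (by omega) (by omega)))] at hc3
  exact comm_of_mul_left hc3 (S.aa _ _ _ _)

/-- case (1), product of three -/
lemma case1b (S : Sys a b g2 g3) {D : ℤ} (hD : 5 ≤ D) (H : Hyp a b (D - 1)) (l l' : Λ) (l'' : Λ')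
    (p j : ℤ) (h1 : p + 2 ≤ j) (h2 : j ≤ p + D - 2) :
    Commute (a l p) (⁅a l' (p + D), b l'' (j - 1)⁆⁻¹ * ⁅a l' (p + D), b l'' j⁆⁻¹
      * ⁅a l' (p + D), b l'' (j + 1)⁆⁻¹) := by
  have h0 : Commute (a l (p + 1)) (b l'' j * a l' (p + D - 1) * (b l'' j)⁻¹) :=
    S.form.mp (H.1 _ _ _ _ _ _ (Win.mk' (lo := p + 1) (hi := p + D) (by omega) (by omega)
      (by omega) (by omega) (by omega) (by omega) (by omega)))
  have hc := conj_comm (g := g3) h0
  have e1 : g3 * (b l'' j * a l' (p + D - 1) * (b l'' j)⁻¹) * g3⁻¹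
      = (b l'' (j + 1) * b l'' j * b l'' (j - 1)) * a l' (p + D)
          * (b l'' (j + 1) * b l'' j * b l'' (j - 1))⁻¹
        * (((b l'' (j + 1) * b l'' j * b l'' (j - 1)) * a l' (p + D - 1)
          * (b l'' (j + 1) * b l'' j * b l'' (j - 1))⁻¹)
        * ((b l'' (j + 1) * b l'' j * b l'' (j - 1)) * a l' (p + D - 2)
          * (b l'' (j + 1) * b l'' j * b l'' (j - 1))⁻¹)) := by
    have := S.g3b l'' j
    have h' := S.g3a l' (p + D - 1)
    rw [show p + D - 1 + 1 = p + D by ring, show p + D - 1 - 1 = p + D - 2 by ring] at h'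
    calc g3 * (b l'' j * a l' (p + D - 1) * (b l'' j)⁻¹) * g3⁻¹
        = (g3 * b l'' j * g3⁻¹) * (g3 * a l' (p + D - 1) * g3⁻¹)
          * (g3 * b l'' j * g3⁻¹)⁻¹ := by group
      _ = _ := by rw [this, h']; group
  rw [S.g3a, e1, show p + 1 + 1 = p + 2 by ring, show p + 1 - 1 = p by ring] at hc
  have w : ∀ x w lo : ℤ, lo ≤ x → x ≤ lo + (D - 1) → lo ≤ w → w ≤ lo + (D - 1) →
      lo ≤ j - 1 → j + 1 ≤ lo + (D - 1) →
      Commute (a l x) ((b l'' (j + 1) * b l'' j * b l'' (j - 1)) * a l' w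
        * (b l'' (j + 1) * b l'' j * b l'' (j - 1))⁻¹) := by
    intro x w lo hx1 hx2 hw1 hw2 hj1 hj2
    have w1 := S.win H (l := l) (l' := l') (x := x) (w := w) (lo := lo)
      (hi := lo + (D - 1)) (by omega) (by omega) (by omega) (by omega) (by omega)
      [(l'', j + 1), (l'', j), (l'', j - 1)] (by simp; omega)
    simp only [List.map_cons, List.map_nil, List.prod_cons, List.prod_nil, mul_one] at w1
    simpa only [mul_assoc] using w1
  have dd : ∀ w' : ℤ, p ≤ w' → w' ≤ p + D - 1 → Commute (a l (p + 2) * a l (p + 1) * a l p)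
      ((b l'' (j + 1) * b l'' j * b l'' (j - 1)) * a l' w'
        * (b l'' (j + 1) * b l'' j * b l'' (j - 1))⁻¹) := by
    intro w' h1' h2'
    exact ((w (p + 2) w' p (by omega) (by omega) (by omega) (by omega) (by omega)
      (by omega)).mul_left (w (p + 1) w' p (by omega) (by omega) (by omega) (by omega) (by omega)
      (by omega))).mul_left (w p w' p (by omega) (by omega) (by omega) (by omega) (by omega)
      (by omega))
  have hc2 := comm_of_mul_left hc ((dd _ (by omega) (by omega)).mul_right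
    (dd _ (by omega) (by omega)))
  have d2 := (w (p + 2) (p + D) (p + 1) (by omega) (by omega) (by omega) (by omega) (by omega)
    (by omega)).mul_left (w (p + 1) (p + D) (p + 1) (by omega) (by omega) (by omega) (by omega)
    (by omega) (by omega))
  have hc3 := (comm_of_mul_right hc2.symm d2.symm).symm
  have cw : ∀ x z : ℤ, p + 1 ≤ x → x ≤ p + D → p + 1 ≤ z → z ≤ p + D →
      Commute (b l'' x) ⁅a l' (p + D), b l'' z⁆ := by
    intro x z h1 h2 h3 h4
    exact H.2 _ _ _ _ _ _ (Win.mk' (lo := p + 1) (hi := p + D) (by omega) (by omega)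
      (by omega) (by omega) (by omega) (by omega) (by omega))
  rw [form3 (cw _ _ (by omega) (by omega) (by omega) (by omega))
    (cw _ _ (by omega) (by omega) (by omega) (by omega))
    (cw _ _ (by omega) (by omega) (by omega) (by omega))] at hc3
  exact comm_of_mul_left hc3 (S.aa _ _ _ _)

/-- case (1): `a_p` commutes with `[a_(p+D), b_j]`, `p < j < p + D` -/
lemma case1 (S : Sys a b g2 g3) {D : ℤ} (hD : 5 ≤ D) (H : Hyp a b (D - 1)) (l l' : Λ) (l'' : Λ')
    (p j : ℤ) (h1 : p < j) (h2 : j < p + D) : Commute (a l p) ⁅a l' (p + D), b l'' j⁆ := by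
  have mid : ∀ j, p + 2 ≤ j → j ≤ p + D - 2 → Commute (a l p) ⁅a l' (p + D), b l'' j⁆ := by
    intro j h1 h2
    have A := case1a S hD H l l' l'' p j h1 h2
    have B := case1b S hD H l l' l'' p j h1 h2
    have cc : Commute ⁅a l' (p + D), b l'' (j - 1)⁆ ⁅a l' (p + D), b l'' j⁆ := by
      have t1 : Commute (a l' (p + D)) ⁅a l' (p + D), b l'' j⁆ :=
        H.1 _ _ _ _ _ _ (Win.mk' (lo := p + 1) (hi := p + D) (by omega) (by omega)
          (by omega) (by omega) (by omega) (by omega) (by omega))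
      have t2 : Commute (b l'' (j - 1)) ⁅a l' (p + D), b l'' j⁆ :=
        H.2 _ _ _ _ _ _ (Win.mk' (lo := p + 1) (hi := p + D) (by omega) (by omega)
          (by omega) (by omega) (by omega) (by omega) (by omega))
      rw [commutatorElement_def (a l' (p + D)) (b l'' (j - 1))]
      exact ((t1.mul_left t2).mul_left t1.inv_left).mul_left t2.inv_left
    rw [(cc.inv_left.inv_right).eq, mul_assoc] at B
    exact Commute.inv_right_iff.mp (comm_of_mul_left B A)
  rcases lt_trichotomy j (p + 1) with h | h | h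
  · omega
  · subst h
    have A := case1a S hD H l l' l'' p (p + 2) (by omega) (by omega)
    rw [show p + 2 + 1 = p + 3 by ring, show p + 2 - 1 = p + 1 by ring] at A
    exact Commute.inv_right_iff.mp (comm_of_mul_left A (mid (p + 3) (by omega) (by omega)).inv_right)
  · by_cases h3 : j ≤ p + D - 2
    · exact mid j (by omega) h3
    · have hj : j = p + D - 1 := by omega
      subst hj
      have A := case1a S hD H l l' l'' p (p + D - 2) (by omega) (by omega)
      rw [show p + D - 2 + 1 = p + D - 1 by ring, show p + D - 2 - 1 = p + D - 3 by ring] at A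
      exact Commute.inv_right_iff.mp (comm_of_mul_right A
        (mid (p + D - 3) (by omega) (by omega)).inv_right)

/-- exchange of the two `a`'s -/
lemma Sys.exch (S : Sys a b g2 g3) {l l' : Λ} {l'' : Λ'} {i j k : ℤ}
    (h : Commute (a l i) ⁅a l' j, b l'' k⁆) : Commute (a l' j) ⁅a l i, b l'' k⁆ := by
  rw [S.form] at h ⊢
  have hs := S.b2 l'' k
  have := conj_comm (g := b l'' k) h
  have e : b l'' k * (b l'' k * a l' j * (b l'' k)⁻¹) * (b l'' k)⁻¹ = a l' j := by
    calc _ = (b l'' k * b l'' k) * a l' j * (b l'' k * b l'' k)⁻¹ := by group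
      _ = a l' j := by rw [hs]; group
  rw [e] at this
  exact this.symm

/-- mirror image of case (2) -/
lemma case2' (S : Sys a b g2 g3) {D : ℤ} (hD : 5 ≤ D) (H : Hyp a b (D - 1)) (l l' : Λ) (l'' : Λ')
    (p i : ℤ) (h1 : p < i) (h2 : i < p + D) : Commute (a l i) ⁅a l' p, b l'' (p + D)⁆ := by
  have := case2 S.rev hD H.rev l l' l'' (-(p + D)) (-i) (by omega) (by omega)
  simp only [neg_neg] at this
  rwa [show -(-(p + D) + D) = p by ring] at this

/-- `a_x`, `p < x < p + D`, commutes with `(b_(p+2) b_p) a_(p+D) (b_(p+2) b_p)⁻¹` -/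
lemma inner (S : Sys a b g2 g3) {D : ℤ} (hD : 5 ≤ D) (H : Hyp a b (D - 1)) (l l' : Λ) (l'' : Λ')
    (p x : ℤ) (h1 : p < x) (h2 : x < p + D) :
    Commute (a l x) ((b l'' (p + 2) * b l'' p) * a l' (p + D)
      * (b l'' (p + 2) * b l'' p)⁻¹) := by
  have c := case2 S hD H l l' l'' p x h1 h2
  rw [S.form] at c
  have sq := S.b2 l'' (p + 2)
  have t1 : Commute ⁅a l x, b l'' (p + 2)⁆ (b l'' p) :=
    (H.2 _ _ _ _ _ _ (Win.mk' (lo := p) (hi := p + D - 1) (by omega) (by omega) (by omega)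
        (by omega) (by omega) (by omega) (by omega))).symm
  have t2 : Commute ⁅a l x, b l'' (p + 2)⁆ (a l' (p + D)) :=
    (H.1 _ _ _ _ _ _ (Win.mk' (lo := p + 1) (hi := p + D) (by omega) (by omega) (by omega)
        (by omega) (by omega) (by omega) (by omega))).symm
  have c' : Commute (b l'' (p + 2) * a l x * (b l'' (p + 2))⁻¹)
      (b l'' p * a l' (p + D) * (b l'' p)⁻¹) := by
    have e : b l'' (p + 2) * a l x * (b l'' (p + 2))⁻¹ = ⁅a l x, b l'' (p + 2)⁆⁻¹ * a l x := by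
      rw [commutatorElement_inv, commutatorElement_def]; group
    rw [e]
    exact (((t1.mul_right t2).mul_right t1.inv_right).inv_left).mul_left c
  have c'' := conj_comm (g := b l'' (p + 2)) c'
  have e : b l'' (p + 2) * (b l'' (p + 2) * a l x * (b l'' (p + 2))⁻¹) * (b l'' (p + 2))⁻¹
      = a l x := by
    calc _ = (b l'' (p + 2) * b l'' (p + 2)) * a l x * (b l'' (p + 2) * b l'' (p + 2))⁻¹ := by
          group
      _ = a l x := by rw [sq]; group
  rw [e] at c''
  have e' : b l'' (p + 2) * (b l'' p * a l' (p + D) * (b l'' p)⁻¹) * (b l'' (p + 2))⁻¹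
      = (b l'' (p + 2) * b l'' p) * a l' (p + D) * (b l'' (p + 2) * b l'' p)⁻¹ := by group
  rwa [e'] at c''

/-- the outer conjugate in terms of the inner one -/
lemma outer (S : Sys a b g2 g3) {D : ℤ} (hD : 5 ≤ D) (H : Hyp a b (D - 1)) (l' : Λ) (l'' : Λ')
    (p : ℤ) : (b l'' (p + 2) * b l'' p) * a l' (p + D) * (b l'' (p + 2) * b l'' p)⁻¹
      = ⁅a l' (p + D), b l'' (p + 2)⁆⁻¹ * (b l'' p * a l' (p + D) * (b l'' p)⁻¹) := by
  have cb := S.bb l'' l'' (p + 2) p
  have h : Commute (b l'' p) ⁅a l' (p + D), b l'' (p + 2)⁆ := by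
    have := (case2' S.swap hD H.swap l'' l'' l' p (p + 2) (by omega) (by omega))
    have t := S.swap.exch this
    rw [← commutatorElement_inv] at t
    exact Commute.inv_right_iff.mp t
  rw [cb.eq]
  calc (b l'' p * b l'' (p + 2)) * a l' (p + D) * (b l'' p * b l'' (p + 2))⁻¹
      = b l'' p * (b l'' (p + 2) * a l' (p + D) * (b l'' (p + 2))⁻¹) * (b l'' p)⁻¹ := by group
    _ = (b l'' p * ⁅a l' (p + D), b l'' (p + 2)⁆⁻¹) * a l' (p + D) * (b l'' p)⁻¹ := by
        rw [commutatorElement_inv, commutatorElement_def]; group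
    _ = _ := by rw [h.inv_right.eq]; group

/-- the conjugation formula used in the ties -/
lemma g2conj (S : Sys a b g2 g3) (l' : Λ) (l'' : Λ') (p D : ℤ) :
    g2 * (b l'' (p + 1) * a l' (p + D - 1) * (b l'' (p + 1))⁻¹) * g2⁻¹
      = (b l'' (p + 2) * b l'' p) * a l' (p + D) * (b l'' (p + 2) * b l'' p)⁻¹
        * ((b l'' (p + 2) * b l'' p) * a l' (p + D - 2) * (b l'' (p + 2) * b l'' p)⁻¹) := by
  have := S.g2b l'' (p + 1)
  have h' := S.g2a l' (p + D - 1)
  rw [show p + 1 + 1 = p + 2 by ring, show p + 1 - 1 = p by ring] at this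
  rw [show p + D - 1 + 1 = p + D by ring, show p + D - 1 - 1 = p + D - 2 by ring] at h'
  calc g2 * (b l'' (p + 1) * a l' (p + D - 1) * (b l'' (p + 1))⁻¹) * g2⁻¹
      = (g2 * b l'' (p + 1) * g2⁻¹) * (g2 * a l' (p + D - 1) * g2⁻¹)
        * (g2 * b l'' (p + 1) * g2⁻¹)⁻¹ := by group
    _ = _ := by rw [this, h']; group

/-- first tie -/
lemma tie1 (S : Sys a b g2 g3) {D : ℤ} (hD : 5 ≤ D) (H : Hyp a b (D - 1)) (l l' : Λ) (l'' : Λ')
    (p : ℤ) : Commute (a l (p + D)) ⁅a l' (p + D), b l'' p⁆ := by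
  rw [S.form]
  have h0 : Commute (a l (p + D - 1)) (b l'' (p + 1) * a l' (p + D - 1) * (b l'' (p + 1))⁻¹) :=
    S.form.mp (H.1 _ _ _ _ _ _ (Win.mk' (lo := p + 1) (hi := p + D) (by omega) (by omega)
      (by omega) (by omega) (by omega) (by omega) (by omega)))
  have hc := conj_comm (g := g2) h0
  rw [g2conj S l' l'' p D, S.g2a, show p + D - 1 + 1 = p + D by ring,
    show p + D - 1 - 1 = p + D - 2 by ring] at hc
  have d1 := inner S hD H l l' l'' p (p + D - 2) (by omega) (by omega)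
  have d2 : Commute (a l (p + D - 2)) ((b l'' (p + 2) * b l'' p) * a l' (p + D - 2)
      * (b l'' (p + 2) * b l'' p)⁻¹) := by
    have w1 := S.win H (l := l) (l' := l') (x := p + D - 2) (w := p + D - 2) (lo := p)
      (hi := p + D - 1) (by omega) (by omega) (by omega) (by omega) (by omega)
      [(l'', p + 2), (l'', p)] (by simp; omega)
    simpa only [List.map_cons, List.map_nil, List.prod_cons, List.prod_nil, mul_one] using w1
  have hc2 := (comm_of_mul_left hc.symm (d1.mul_right d2).symm).symm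
  have d3 : Commute (a l (p + D)) ((b l'' (p + 2) * b l'' p) * a l' (p + D - 2)
      * (b l'' (p + 2) * b l'' p)⁻¹) := by
    rw [form2 (H.2 _ _ _ _ _ _ (Win.mk' (lo := p) (hi := p + D - 1) (by omega) (by omega)
      (by omega) (by omega) (by omega) (by omega) (by omega)))]
    have t1 : Commute (a l (p + D)) ⁅a l' (p + D - 2), b l'' p⁆ :=
      S.exch (case2 S hD H l' l l'' p (p + D - 2) (by omega) (by omega))
    have t2 : Commute (a l (p + D)) ⁅a l' (p + D - 2), b l'' (p + 2)⁆ :=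
      H.1 _ _ _ _ _ _ (Win.mk' (lo := p + 1) (hi := p + D) (by omega) (by omega) (by omega)
        (by omega) (by omega) (by omega) (by omega))
    exact (t1.inv_right.mul_right t2.inv_right).mul_right (S.aa _ _ _ _)
  have hc3 := comm_of_mul_left hc2 d3
  rw [outer S hD H] at hc3
  refine comm_of_mul_right hc3 (Commute.inv_right ?_)
  exact H.1 _ _ _ _ _ _ (Win.mk' (lo := p + 1) (hi := p + D) (by omega) (by omega) (by omega)
        (by omega) (by omega) (by omega) (by omega))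

/-- second tie -/
lemma tie2 (S : Sys a b g2 g3) {D : ℤ} (hD : 5 ≤ D) (H : Hyp a b (D - 1)) (l l' : Λ) (l'' : Λ')
    (p : ℤ) : Commute (a l p) ⁅a l' (p + D), b l'' p⁆ := by
  rw [S.form]
  have h0 : Commute (a l (p + 1)) (b l'' (p + 1) * a l' (p + D - 1) * (b l'' (p + 1))⁻¹) :=
    S.form.mp (H.1 _ _ _ _ _ _ (Win.mk' (lo := p + 1) (hi := p + D) (by omega) (by omega)
      (by omega) (by omega) (by omega) (by omega) (by omega)))
  have hc := conj_comm (g := g2) h0
  rw [g2conj S l' l'' p D, S.g2a, show p + 1 + 1 = p + 2 by ring,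
    show p + 1 - 1 = p by ring] at hc
  have w : ∀ x : ℤ, p ≤ x → x ≤ p + D - 1 → Commute (a l x) ((b l'' (p + 2) * b l'' p)
      * a l' (p + D - 2) * (b l'' (p + 2) * b l'' p)⁻¹) := by
    intro x hx1 hx2
    have w1 := S.win H (l := l) (l' := l') (x := x) (w := p + D - 2) (lo := p)
      (hi := p + D - 1) (by omega) (by omega) (by omega) (by omega) (by omega)
      [(l'', p + 2), (l'', p)] (by simp; omega)
    simpa only [List.map_cons, List.map_nil, List.prod_cons, List.prod_nil, mul_one] using w1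
  have hc2 := comm_of_mul_left hc ((w (p + 2) (by omega) (by omega)).mul_left
    (w p (by omega) (by omega)))
  have hc3 := (comm_of_mul_right hc2.symm
    (inner S hD H l l' l'' p (p + 2) (by omega) (by omega)).symm).symm
  rw [outer S hD H] at hc3
  exact comm_of_mul_right hc3 (case1 S hD H l l' l'' p (p + 2) (by omega) (by omega)).inv_right

lemma tie1' (S : Sys a b g2 g3) {D : ℤ} (hD : 5 ≤ D) (H : Hyp a b (D - 1)) (l l' : Λ) (l'' : Λ')
    (p : ℤ) : Commute (a l p) ⁅a l' p, b l'' (p + D)⁆ := by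
  have := tie1 S.rev hD H.rev l l' l'' (-(p + D))
  simp only [neg_neg] at this
  rwa [show -(-(p + D) + D) = p by ring] at this

lemma tie2' (S : Sys a b g2 g3) {D : ℤ} (hD : 5 ≤ D) (H : Hyp a b (D - 1)) (l l' : Λ) (l'' : Λ')
    (p : ℤ) : Commute (a l (p + D)) ⁅a l' p, b l'' (p + D)⁆ := by
  have := tie2 S.rev hD H.rev l l' l'' (-(p + D))
  simp only [neg_neg] at this
  rwa [show -(-(p + D) + D) = p by ring] at this

lemma stepB (S : Sys a b g2 g3) {D : ℤ} (hD : 5 ≤ D) (H : Hyp a b (D - 1)) (l l' : Λ) (l'' : Λ')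
    (i j k : ℤ) (hw : Win D i j k) : Commute (a l i) ⁅a l' j, b l'' k⁆ := by
  by_cases hs : Win (D - 1) i j k
  · exact H.1 _ _ _ _ _ _ hs
  obtain ⟨w1, w2, w3⟩ := hw
  rw [abs_le] at w1 w2 w3
  -- case analysis on the position of the extreme indices
  have key : ∀ (i j k : ℤ) (l l' : Λ), (i = k + D ∨ j = k + D) → k ≤ i → k ≤ j → i ≤ k + D →
      j ≤ k + D → Commute (a l i) ⁅a l' j, b l'' k⁆ := by
    intro i j k l l' h hi hj hi' hj'
    rcases h with rfl | rfl
    · apply S.exch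
      rcases eq_or_lt_of_le hj with rfl | hj
      · exact tie2 S hD H _ _ _ _
      · rcases eq_or_lt_of_le hj' with rfl | hj'
        · exact tie1 S hD H _ _ _ _
        · exact case2 S hD H _ _ _ _ _ hj hj'
    · rcases eq_or_lt_of_le hi with rfl | hi
      · exact tie2 S hD H _ _ _ _
      · rcases eq_or_lt_of_le hi' with rfl | hi'
        · exact tie1 S hD H _ _ _ _
        · exact case2 S hD H _ _ _ _ _ hi hi'
  have key' : ∀ (i j p : ℤ) (l l' : Λ), (i = p ∨ j = p) → p ≤ i → p ≤ j → i ≤ p + D →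
      j ≤ p + D → Commute (a l i) ⁅a l' j, b l'' (p + D)⁆ := by
    intro i j p l l' h hi hj hi' hj'
    rcases h with rfl | rfl
    · apply S.exch
      rcases eq_or_lt_of_le hj with rfl | hj
      · exact tie1' S hD H _ _ _ _
      · rcases eq_or_lt_of_le hj' with rfl | hj'
        · exact tie2' S hD H _ _ _ _
        · exact case2' S hD H _ _ _ _ _ hj hj'
    · rcases eq_or_lt_of_le hi with rfl | hi
      · exact tie1' S hD H _ _ _ _
      · rcases eq_or_lt_of_le hi' with rfl | hi'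
        · exact tie2' S hD H _ _ _ _
        · exact case2' S hD H _ _ _ _ _ hi hi'
  have hs' : ¬ (|i - j| ≤ D - 1 ∧ |j - k| ≤ D - 1 ∧ |i - k| ≤ D - 1) := hs
  rw [abs_le, abs_le, abs_le] at hs'
  by_cases c1 : (i = k + D ∨ j = k + D)
  · refine key i j k l l' c1 ?_ ?_ ?_ ?_ <;> omega
  · by_cases c2 : (i = k - D ∨ j = k - D)
    · have := key' i j (k - D) l l' c2 (by omega) (by omega) (by omega) (by omega)
      rwa [sub_add_cancel] at this
    · rcases (show i = j + D ∨ j = i + D by omega) with h | h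
      · subst h
        exact S.exch (case1 S hD H _ _ _ _ _ (by omega) (by omega))
      · subst h
        exact case1 S hD H _ _ _ _ _ (by omega) (by omega)

/-- T3: if all commutators are central in windows of length 4 they are central -/
theorem T3 (S : Sys a b g2 g3) (H : Hyp a b 4) (D : ℤ) : Hyp a b D := by
  have main : ∀ n : ℕ, Hyp a b (4 + n) := by
    intro n
    induction n with
    | zero => simpa using H
    | succ n ih =>
      have hD : (5 : ℤ) ≤ 4 + ((n + 1 : ℕ) : ℤ) := by push_cast; omega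
      have H' : Hyp a b (4 + ((n + 1 : ℕ) : ℤ) - 1) := by
        have e : (4 : ℤ) + ((n + 1 : ℕ) : ℤ) - 1 = 4 + n := by push_cast; ring
        rw [e]; exact ih
      refine ⟨fun l l' l'' i j k hw => stepB S hD H' l l' l'' i j k hw, ?_⟩
      intro l l' l'' i j k hw
      have := stepB S.swap hD H'.swap l l'' l' i k j hw.swap
      rw [← commutatorElement_inv] at this
      exact Commute.inv_right_iff.mp this
  have mono : ∀ {D D' : ℤ}, D ≤ D' → Hyp a b D' → Hyp a b D := by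
    intro D D' h hh
    refine ⟨fun l l' l'' i j k hw => hh.1 l l' l'' i j k ⟨hw.1.trans h, hw.2.1.trans h,
      hw.2.2.trans h⟩, fun l l' l'' i j k hw => hh.2 l l' l'' i j k ⟨hw.1.trans h, hw.2.1.trans h,
      hw.2.2.trans h⟩⟩
  exact mono (by have := Int.self_le_toNat D; omega) (main D.toNat)

theorem T3a (S : Sys a b g2 g3) (H : Hyp a b 4) (l l' : Λ) (l'' : Λ') (i j k : ℤ) :
    Commute (a l i) ⁅a l' j, b l'' k⁆ :=
  (T3 S H (|i - j| + |j - k| + |i - k|)).1 l l' l'' i j k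
    ⟨by have := abs_nonneg (j - k); have := abs_nonneg (i - k); omega,
      by have := abs_nonneg (i - j); have := abs_nonneg (i - k); omega,
      by have := abs_nonneg (i - j); have := abs_nonneg (j - k); omega⟩

theorem T3b (S : Sys a b g2 g3) (H : Hyp a b 4) (l : Λ') (l' : Λ) (l'' : Λ') (i j k : ℤ) :
    Commute (b l i) ⁅a l' j, b l'' k⁆ :=
  (T3 S H (|i - j| + |j - k| + |i - k|)).2 l l' l'' i j k
    ⟨by have := abs_nonneg (j - k); have := abs_nonneg (i - k); omega,
      by have := abs_nonneg (i - j); have := abs_nonneg (i - k); omega,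
      by have := abs_nonneg (i - j); have := abs_nonneg (j - k); omega⟩

end Sys

end Pool.Agent.H69.MG
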