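import Pool.Agent.H69.MG.Weights

/-! Helper69, MP_a4b3b2_al: multiplicative forms of the weight lemmas. -/

set_option autoImplicit false

namespace Pool.Agent.H69.MG

section Lift

variable {A B C : Type*} [Group A] [Group B] [Group C]

/-- a subgroup with commuting elements as a commutative group -/
@[reducible] def cgM (M : Subgroup A) (hM : ∀ m ∈ M, ∀ m' ∈ M, Commute m m') : CommGroup M :=
  { (inferInstance : Group M) with
    mul_comm := fun a b => Subtype.ext (hM a a.2 b b.2) }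

lemma closure_comm {T : Set C} (h : ∀ x ∈ T, ∀ y ∈ T, Commute x y) :
    ∀ x ∈ Subgroup.closure T, ∀ y ∈ Subgroup.closure T, Commute x y := by
  have h1 : ∀ x ∈ Subgroup.closure T, ∀ y ∈ T, Commute x y := by
    intro x hx y hy
    induction hx using Subgroup.closure_induction with
    | mem x hx => exact h x hx y hy
    | one => exact Commute.one_left y
    | mul a b _ _ ha hb => exact ha.mul_left hb
    | inv a _ ha => exact ha.inv_left
  intro x hx y hy
  induction hy using Subgroup.closure_induction with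
  | mem y hy => exact h1 x hx y hy
  | one => exact Commute.one_right x
  | mul a b _ _ ha hb => exact ha.mul_right hb
  | inv a _ ha => exact ha.inv_right

variable (M : Subgroup A) (N : Subgroup B)

lemma values_comm (κ : A → B → C)
    (h1 : ∀ m ∈ M, ∀ m' ∈ M, ∀ n ∈ N, κ (m * m') n = κ m n * κ m' n)
    (h2 : ∀ m ∈ M, ∀ n ∈ N, ∀ n' ∈ N, κ m (n * n') = κ m n * κ m n') :
    ∀ m ∈ M, ∀ n ∈ N, ∀ m' ∈ M, ∀ n' ∈ N, Commute (κ m n) (κ m' n') := by
  intro m' hm' n hn m hm n' hn'
  -- κ m' n commutes with κ m n'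
  have e1 : κ (m * m') (n * n') = κ m n * κ m' n * (κ m n' * κ m' n') := by
    rw [h2 _ (M.mul_mem hm hm') _ hn _ hn', h1 _ hm _ hm' _ hn, h1 _ hm _ hm' _ hn']
  have e2 : κ (m * m') (n * n') = κ m n * κ m n' * (κ m' n * κ m' n') := by
    rw [h1 _ hm _ hm' _ (N.mul_mem hn hn'), h2 _ hm _ hn _ hn', h2 _ hm' _ hn _ hn']
  have e3 := e1.symm.trans e2
  have e4 : κ m n * (κ m' n * κ m n') * κ m' n' = κ m n * (κ m n' * κ m' n) * κ m' n' := by
    calc _ = κ m n * κ m' n * (κ m n' * κ m' n') := by group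
      _ = κ m n * κ m n' * (κ m' n * κ m' n') := e3
      _ = _ := by group
  exact mul_left_cancel (mul_right_cancel e4)

variable (z : A →* A) (z' : B →* B)

/-- `lin2` and `lin3` for commutative groups written multiplicatively -/
theorem mulAbs {M' N' D : Type*} [CommGroup M'] [CommGroup N'] [CommGroup D]
    (s : M' →* M') (s' : N' →* N') (d2 : ∀ v : M', v * v = 1)
    (rs : ∀ v : M', s (s (s (s (s v)))) * s (s v) * v = 1)
    (rs' : ∀ v : N', s' (s' (s' (s' (s' v)))) * s' (s' v) * v = 1)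
    (k : M' →* N' →* D)
    (h : (∀ v v', k (s v) (s' v') = k v v') ∨
      (∀ v v', k v v' * k (s (s (s v))) (s' (s' (s' v')))
        * k (s (s (s (s (s v))))) (s' (s' (s' (s' (s' v'))))) = 1)) :
    ∀ v v', k v v' = 1 := by
  let kk : Additive M' →+ Additive N' →+ Additive D := AddMonoidHom.mk'
    (fun m => MonoidHom.toAdditive (k (Additive.toMul m))) (by
      intro a b
      ext n
      change k (Additive.toMul a * Additive.toMul b) (Additive.toMul n)
        = k (Additive.toMul a) (Additive.toMul n) * k (Additive.toMul b) (Additive.toMul n)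
      rw [map_mul]
      rfl)
  have k0 : kk = 0 := by
    rcases h with h | h
    · exact lin2 (V := Additive M') (V' := Additive N') (C := Additive D) d2
        (MonoidHom.toAdditive s) (MonoidHom.toAdditive s') rs rs' kk h
    · exact lin3 (V := Additive M') (V' := Additive N') (C := Additive D) d2
        (MonoidHom.toAdditive s) (MonoidHom.toAdditive s') rs rs' kk h
  intro v v'
  exact congrArg (fun f : Additive M' →+ Additive N' →+ Additive D =>
    Additive.toMul (f (Additive.ofMul v) (Additive.ofMul v'))) k0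

/-- multiplicative form of `lin2` and `lin3` -/
theorem mul23 (hz : ∀ m ∈ M, z m ∈ M) (hz' : ∀ n ∈ N, z' n ∈ N)
    (hM : ∀ m ∈ M, ∀ m' ∈ M, Commute m m') (hN : ∀ n ∈ N, ∀ n' ∈ N, Commute n n')
    (hM2 : ∀ m ∈ M, m * m = 1)
    (hMΦ : ∀ m ∈ M, z (z (z (z (z m)))) * z (z m) * m = 1)
    (hNΦ : ∀ n ∈ N, z' (z' (z' (z' (z' n)))) * z' (z' n) * n = 1)
    (κ : A → B → C)
    (h1 : ∀ m ∈ M, ∀ m' ∈ M, ∀ n ∈ N, κ (m * m') n = κ m n * κ m' n)
    (h2 : ∀ m ∈ M, ∀ n ∈ N, ∀ n' ∈ N, κ m (n * n') = κ m n * κ m n')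
    (h : (∀ m ∈ M, ∀ n ∈ N, κ (z m) (z' n) = κ m n) ∨
      (∀ m ∈ M, ∀ n ∈ N, κ m n * κ (z (z (z m))) (z' (z' (z' n)))
        * κ (z (z (z (z (z m))))) (z' (z' (z' (z' (z' n))))) = 1)) :
    ∀ m ∈ M, ∀ n ∈ N, κ m n = 1 := by
  let T : Set C := {c | ∃ m ∈ M, ∃ n ∈ N, c = κ m n}
  have hT : ∀ x ∈ T, ∀ y ∈ T, Commute x y := by
    rintro x ⟨m, hm, n, hn, rfl⟩ y ⟨m', hm', n', hn', rfl⟩
    exact values_comm M N κ h1 h2 m hm n hn m' hm' n' hn'
  let D : Subgroup C := Subgroup.closure T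
  let _ : CommGroup M := cgM M hM
  let _ : CommGroup N := cgM N hN
  let _ : CommGroup D := cgM D (closure_comm hT)
  have hval : ∀ m ∈ M, ∀ n ∈ N, κ m n ∈ D := fun m hm n hn =>
    Subgroup.subset_closure ⟨m, hm, n, hn, rfl⟩
  let s : M →* M := MonoidHom.mk' (fun m => ⟨z m.1, hz _ m.2⟩) (by
      intro a b
      apply Subtype.ext
      exact map_mul z _ _)
  let s' : N →* N := MonoidHom.mk' (fun m => ⟨z' m.1, hz' _ m.2⟩) (by
      intro a b
      apply Subtype.ext
      exact map_mul z' _ _)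
  let k : M →* N →* D := MonoidHom.mk'
    (fun m => MonoidHom.mk' (fun n => (⟨κ m.1 n.1, hval _ m.2 _ n.2⟩ : D)) (by
        intro a b
        apply Subtype.ext
        exact h2 _ m.2 _ a.2 _ b.2)) (by
      intro a b
      ext n
      exact h1 _ a.2 _ b.2 _ n.2)
  have k0 := mulAbs s s' (fun v => Subtype.ext (hM2 _ v.2)) (fun v => Subtype.ext (hMΦ _ v.2))
    (fun v => Subtype.ext (hNΦ _ v.2)) k (by
      rcases h with h | h
      · exact Or.inl fun v v' => Subtype.ext (h _ v.2 _ v'.2)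
      · exact Or.inr fun v v' => Subtype.ext (h _ v.2 _ v'.2))
  intro m hm n hn
  exact congrArg Subtype.val (k0 ⟨m, hm⟩ ⟨n, hn⟩)

end Lift

end Pool.Agent.H69.MG
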