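import Mathlib

/-! Helper69, MP_a4b3b2_al: the linear form of the weight lemmas W2, W3 of proofs 252. -/

set_option autoImplicit false

namespace Pool.Agent.H69.MG

section Lin

variable {V V' C : Type*} [AddCommGroup V] [AddCommGroup V'] [AddCommGroup C]

/-- precomposition in the first slot -/
def opS (s : V →+ V) : AddMonoid.End (V →+ V' →+ C) := AddMonoidHom.compHom' s

/-- precomposition in the second slot -/
def opT (s' : V' →+ V') : AddMonoid.End (V →+ V' →+ C) :=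
  AddMonoidHom.compHom (AddMonoidHom.compHom' s')

lemma opS_apply (s : V →+ V) (f : V →+ V' →+ C) (v : V) (v' : V') :
    (opS s f) v v' = f (s v) v' := rfl

lemma opT_apply (s' : V' →+ V') (f : V →+ V' →+ C) (v : V) (v' : V') :
    (opT s' f) v v' = f v (s' v') := rfl

lemma opS_rel (s : V →+ V) (hs : ∀ v, s (s (s (s (s v)))) + s (s v) + v = 0) :
    (opS s : AddMonoid.End (V →+ V' →+ C)) ^ 5 + opS s ^ 2 + 1 = 0 := by
  ext f v v'
  have e5 : ((opS s : AddMonoid.End (V →+ V' →+ C)) ^ 5) f v v' = f (s (s (s (s (s v))))) v' := by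
    simp only [pow_succ, pow_zero, one_mul]
    rfl
  have e2 : ((opS s : AddMonoid.End (V →+ V' →+ C)) ^ 2) f v v' = f (s (s v)) v' := by
    simp only [pow_succ, pow_zero, one_mul]
    rfl
  change ((opS s : AddMonoid.End (V →+ V' →+ C)) ^ 5) f v v'
    + ((opS s : AddMonoid.End (V →+ V' →+ C)) ^ 2) f v v' + f v v' = 0
  rw [e5, e2]
  have := congrArg (fun w => f w v') (hs v)
  simpa [map_add, map_zero] using this

lemma opT_rel (s' : V' →+ V') (hs : ∀ v, s' (s' (s' (s' (s' v)))) + s' (s' v) + v = 0) :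
    (opT s' : AddMonoid.End (V →+ V' →+ C)) ^ 5 + opT s' ^ 2 + 1 = 0 := by
  ext f v v'
  have e5 : ((opT s' : AddMonoid.End (V →+ V' →+ C)) ^ 5) f v v'
      = f v (s' (s' (s' (s' (s' v'))))) := by
    simp only [pow_succ, pow_zero, one_mul]
    rfl
  have e2 : ((opT s' : AddMonoid.End (V →+ V' →+ C)) ^ 2) f v v' = f v (s' (s' v')) := by
    simp only [pow_succ, pow_zero, one_mul]
    rfl
  change ((opT s' : AddMonoid.End (V →+ V' →+ C)) ^ 5) f v v'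
    + ((opT s' : AddMonoid.End (V →+ V' →+ C)) ^ 2) f v v' + f v v' = 0
  rw [e5, e2]
  have := congrArg (fun w => f v w) (hs v')
  simpa [map_add, map_zero] using this

lemma op_comm (s : V →+ V) (s' : V' →+ V') :
    (opS s : AddMonoid.End (V →+ V' →+ C)) * opT s' = opT s' * opS s := rfl

lemma two_zero (h2 : ∀ v : V, v + v = 0) : (2 : AddMonoid.End (V →+ V' →+ C)) = 0 := by
  ext f v v'
  have : (2 : AddMonoid.End (V →+ V' →+ C)) = 1 + 1 := by norm_num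
  rw [this]
  change f v v' + f v v' = 0
  rw [← AddMonoidHom.add_apply, ← map_add, h2, map_zero]
  rfl

/-- the polynomial `x³y³+x²y²+x²+y²` is invertible -/
lemma inv3 {R : Type*} [Ring R] {x y : R} (hxy : x * y = y * x) (h2 : (2 : R) = 0)
    (hx : x ^ 5 + x ^ 2 + 1 = 0) (hy : y ^ 5 + y ^ 2 + 1 = 0) :
    ∃ h : R, h * (x ^ 3 * y ^ 3 + x ^ 2 * y ^ 2 + x ^ 2 + y ^ 2) = 1 := by
  let K : Subring R := Subring.closure {x, y}
  let _ : CommRing K := Subring.closureCommRingOfComm (s := {x, y}) (by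
    intro a ha b hb
    rcases ha with rfl | rfl <;> rcases hb with rfl | rfl
    · rfl
    · exact hxy
    · exact hxy.symm
    · rfl)
  have hxK : x ∈ K := Subring.subset_closure (by simp)
  have hyK : y ∈ K := Subring.subset_closure (by simp)
  let u : K := ⟨x, hxK⟩
  let v : K := ⟨y, hyK⟩
  have h2' : (2 : K) = 0 := by
    rw [← one_add_one_eq_two]
    exact Subtype.ext (by change (1 : R) + 1 = 0; rw [one_add_one_eq_two]; exact h2)
  have hu : u ^ 5 + u ^ 2 + 1 = 0 := Subtype.ext hx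
  have hv : v ^ 5 + v ^ 2 + 1 = 0 := Subtype.ext hy
  have key : ∀ (K' : Type _) [CommRing K'] (x y : K'), (2 : K') = 0 → x ^ 5 + x ^ 2 + 1 = 0 →
      y ^ 5 + y ^ 2 + 1 = 0 →
      (1 + y^4 + x*y + x*y^2 + x*y^3 + x^2*y + x^2*y^2 + x^2*y^3 + x^2*y^4 + x^3*y + x^3*y^2
        + x^3*y^4 + x^4 + x^4*y^2 + x^4*y^3)
        * (x ^ 3 * y ^ 3 + x ^ 2 * y ^ 2 + x ^ 2 + y ^ 2) = 1 := by
    intro K' _ x y h2 hx hy
    linear_combination (y + y^2 + y^3 + 3*y^4 + y^5 + 2*y^6 + y^7 + x + 2*x*y^2 + x*y^3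
      + 2*x*y^4 + 2*x*y^5 + x*y^7 + x^2*y^3 + x^2*y^5 + x^2*y^6) * hx
      + (-1 - y - y^2 - x - x*y^2 - x^2 - x^2*y - x^2*y^2 - x^3 + x^3*y + 2*x^4 + x^4*y) * hy
      + (y^2 - y^4 + x^2 + x^2*y^2 + x^3*y^3 - x^4 + 2*x^4*y^4) * h2
  have := key K u v h2' hu hv
  exact ⟨_, congrArg Subtype.val this⟩

/-- the polynomial `x⁴+x²+1` is invertible -/
lemma inv2 {R : Type*} [Ring R] {x : R} (h2 : (2 : R) = 0)
    (hx : x ^ 5 + x ^ 2 + 1 = 0) : ∃ h : R, h * (x ^ 4 + x ^ 2 + 1) = 1 := by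
  refine ⟨x ^ 6 + x ^ 4, ?_⟩
  have e2 : ∀ a : R, a + a = 0 := fun a => by rw [← two_mul, h2, zero_mul]
  have n : ∀ a : R, -a = a := fun a => neg_eq_of_add_eq_zero_left (e2 a)
  have hx5 : x ^ 5 = x ^ 2 + 1 := by
    rw [← n (x ^ 2 + 1)]
    exact eq_neg_of_add_eq_zero_left (by rw [← hx]; abel)
  have h10 : x ^ 10 = x ^ 4 + 1 := by
    calc x ^ 10 = x ^ 5 * x ^ 5 := by rw [← pow_add]
      _ = (x ^ 2 + 1) * (x ^ 2 + 1) := by rw [hx5]
      _ = x ^ 4 + (x ^ 2 + x ^ 2) + 1 := by noncomm_ring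
      _ = x ^ 4 + 1 := by rw [e2, add_zero]
  calc (x ^ 6 + x ^ 4) * (x ^ 4 + x ^ 2 + 1)
      = x ^ 10 + (x ^ 8 + x ^ 8) + (x ^ 6 + x ^ 6) + x ^ 4 := by noncomm_ring
    _ = x ^ 10 + x ^ 4 := by rw [e2, e2, add_zero, add_zero]
    _ = (x ^ 4 + x ^ 4) + 1 := by rw [h10]; abel
    _ = 1 := by rw [e2, zero_add]

/-- W2, linear form -/
theorem lin2 (h2 : ∀ v : V, v + v = 0) (s : V →+ V) (s' : V' →+ V')
    (hs : ∀ v, s (s (s (s (s v)))) + s (s v) + v = 0)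
    (hs' : ∀ v, s' (s' (s' (s' (s' v)))) + s' (s' v) + v = 0) (κ : V →+ V' →+ C)
    (h : ∀ v v', κ (s v) (s' v') = κ v v') : κ = 0 := by
  let S : AddMonoid.End (V →+ V' →+ C) := opS s
  let T : AddMonoid.End (V →+ V' →+ C) := opT s'
  have t2 : (2 : AddMonoid.End (V →+ V' →+ C)) = 0 := two_zero h2
  have hS : S ^ 5 + S ^ 2 + 1 = 0 := opS_rel s hs
  have hT : T ^ 5 + T ^ 2 + 1 = 0 := opT_rel s' hs'
  have hST : S * T = T * S := op_comm s s'
  have hk : (S * T) κ = κ := by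
    ext v v'
    exact h v v'
  have e2 : ∀ a : AddMonoid.End (V →+ V' →+ C), a + a = 0 := fun a => by
    rw [← two_mul, t2, zero_mul]
  have n : ∀ a : AddMonoid.End (V →+ V' →+ C), -a = a := fun a =>
    neg_eq_of_add_eq_zero_left (e2 a)
  have five : ∀ x : AddMonoid.End (V →+ V' →+ C), x ^ 5 + x ^ 2 + 1 = 0 → x ^ 5 = x ^ 2 + 1 := by
    intro x hx
    rw [← n (x ^ 2 + 1)]
    exact eq_neg_of_add_eq_zero_left (by rw [← hx]; abel)
  have hkn : ∀ k : ℕ, ((S * T) ^ k) κ = κ := by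
    intro k
    induction k with
    | zero => rfl
    | succ k ih =>
      rw [pow_succ]
      change ((S * T) ^ k) ((S * T) κ) = κ
      rw [hk, ih]
  have hc : Commute S T := hST
  have e5 : (S * T) ^ 5 = (S * T) ^ 2 + S ^ 2 + T ^ 2 + 1 := by
    rw [hc.mul_pow, five S hS, five T hT, hc.mul_pow]
    noncomm_ring
  -- κ = κ + S²κ + T²κ + κ
  have h3 : (S ^ 2) κ + (T ^ 2) κ + κ = 0 := by
    have := hkn 5
    rw [e5] at this
    change ((S * T) ^ 2) κ + (S ^ 2) κ + (T ^ 2) κ + κ = κ at this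
    rw [hkn 2] at this
    generalize (S ^ 2) κ = a at *
    generalize (T ^ 2) κ = b at *
    have h4 : κ + (a + b + κ) = κ + 0 := by rw [add_zero]; rw [← add_assoc, ← add_assoc]; exact this
    exact add_left_cancel h4
  have h4 : (S ^ 4 + S ^ 2 + 1 : AddMonoid.End (V →+ V' →+ C)) κ = 0 := by
    have h5 := congrArg (fun f => (S ^ 2) f) h3
    simp only [map_add, map_zero] at h5
    have e6 : (S ^ 2) ((S ^ 2) κ) = (S ^ 4) κ := by
      change (S ^ 2 * S ^ 2) κ = (S ^ 4) κ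
      rw [← pow_add]
    have e7 : (S ^ 2) ((T ^ 2) κ) = κ := by
      change (S ^ 2 * T ^ 2) κ = κ
      rw [← hc.mul_pow, hkn]
    rw [e6, e7] at h5
    change (S ^ 4) κ + (S ^ 2) κ + κ = 0
    rw [← h5]
    abel
  obtain ⟨g, hg⟩ := inv2 t2 hS
  have : (g * (S ^ 4 + S ^ 2 + 1) : AddMonoid.End (V →+ V' →+ C)) κ = κ := by rw [hg]; rfl
  rw [← this]
  change g ((S ^ 4 + S ^ 2 + 1 : AddMonoid.End (V →+ V' →+ C)) κ) = 0
  rw [h4, map_zero]

/-- W3, linear form: the third slot has been eliminated -/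
theorem lin3 (h2 : ∀ v : V, v + v = 0) (s : V →+ V) (s' : V' →+ V')
    (hs : ∀ v, s (s (s (s (s v)))) + s (s v) + v = 0)
    (hs' : ∀ v, s' (s' (s' (s' (s' v)))) + s' (s' v) + v = 0) (κ : V →+ V' →+ C)
    (h : ∀ v v', κ v v' + κ (s (s (s v))) (s' (s' (s' v')))
      + κ (s (s (s (s (s v))))) (s' (s' (s' (s' (s' v'))))) = 0) : κ = 0 := by
  let S : AddMonoid.End (V →+ V' →+ C) := opS s
  let T : AddMonoid.End (V →+ V' →+ C) := opT s'
  have t2 : (2 : AddMonoid.End (V →+ V' →+ C)) = 0 := two_zero h2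
  have hS : S ^ 5 + S ^ 2 + 1 = 0 := opS_rel s hs
  have hT : T ^ 5 + T ^ 2 + 1 = 0 := opT_rel s' hs'
  have hST : S * T = T * S := op_comm s s'
  have hc : Commute S T := hST
  have e2 : ∀ a : AddMonoid.End (V →+ V' →+ C), a + a = 0 := fun a => by
    rw [← two_mul, t2, zero_mul]
  have n : ∀ a : AddMonoid.End (V →+ V' →+ C), -a = a := fun a =>
    neg_eq_of_add_eq_zero_left (e2 a)
  have five : ∀ x : AddMonoid.End (V →+ V' →+ C), x ^ 5 + x ^ 2 + 1 = 0 → x ^ 5 = x ^ 2 + 1 := by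
    intro x hx
    rw [← n (x ^ 2 + 1)]
    exact eq_neg_of_add_eq_zero_left (by rw [← hx]; abel)
  have hk : (1 + S ^ 3 * T ^ 3 + S ^ 5 * T ^ 5 : AddMonoid.End (V →+ V' →+ C)) κ = 0 := by
    ext v v'
    have a3 : (S ^ 3 * T ^ 3) κ v v' = κ (s (s (s v))) (s' (s' (s' v'))) := by
      simp only [pow_succ, pow_zero, one_mul]
      rfl
    have a5 : (S ^ 5 * T ^ 5) κ v v'
        = κ (s (s (s (s (s v))))) (s' (s' (s' (s' (s' v'))))) := by
      simp only [pow_succ, pow_zero, one_mul]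
      rfl
    change κ v v' + (S ^ 3 * T ^ 3) κ v v' + (S ^ 5 * T ^ 5) κ v v' = 0
    rw [a3, a5]
    exact h v v'
  have e : 1 + S ^ 3 * T ^ 3 + S ^ 5 * T ^ 5
      = S ^ 3 * T ^ 3 + S ^ 2 * T ^ 2 + S ^ 2 + T ^ 2 := by
    rw [five S hS, five T hT]
    have : 1 + S ^ 3 * T ^ 3 + (S ^ 2 + 1) * (T ^ 2 + 1)
        = (1 + 1) + (S ^ 3 * T ^ 3 + S ^ 2 * T ^ 2 + S ^ 2 + T ^ 2) := by noncomm_ring
    rw [this, e2, zero_add]
  rw [e] at hk
  obtain ⟨g, hg⟩ := inv3 hST t2 hS hT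
  have : (g * (S ^ 3 * T ^ 3 + S ^ 2 * T ^ 2 + S ^ 2 + T ^ 2) : AddMonoid.End (V →+ V' →+ C)) κ
      = κ := by rw [hg]; rfl
  rw [← this]
  change g ((S ^ 3 * T ^ 3 + S ^ 2 * T ^ 2 + S ^ 2 + T ^ 2 : AddMonoid.End (V →+ V' →+ C)) κ) = 0
  rw [hk, map_zero]

end Lin

end Pool.Agent.H69.MG
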