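import Pool.Agent.H86.FS.T3Def
import Pool.Agent.H69.MG.Tame

/-! Helper69: conversion between `T3Sys` (H86) and `Sys` (H69). -/

set_option autoImplicit false

open scoped commutatorElement

namespace Pool.Agent.H69.MG

open Pool.Agent.H86.FS

variable {G : Type*} [Group G] {L : Type*}

lemma toSys (S : T3Sys G L) : Sys S.a S.b S.g2 S.g3 :=
  ⟨S.a2, S.b2, S.aa, S.bb, S.ag2, S.bg2, S.ag3, S.bg3⟩

lemma toHyp (S : T3Sys G L) {D : ℤ} (h : S.P D) : Hyp S.a S.b D := by
  refine ⟨fun l l' l'' i j k hw => ?_, fun l l' l'' i j k hw => ?_⟩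
  · obtain ⟨h1, h2, h3⟩ := hw
    rw [abs_le] at h1 h2 h3
    exact (h (min i (min j k)) l' l'' l j k i (by omega) (by omega) (by omega) (by omega)
      (by omega) (by omega)).1.symm
  · obtain ⟨h1, h2, h3⟩ := hw
    rw [abs_le] at h1 h2 h3
    exact (h (min i (min j k)) l' l'' l j k i (by omega) (by omega) (by omega) (by omega)
      (by omega) (by omega)).2.symm

end Pool.Agent.H69.MG
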